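import Pool.Agent.Work.MP_d1698a_pr.Final

set_option autoImplicit false

open MeasureTheory ProbabilityTheory Filter Set
open scoped ENNReal Topology

namespace Pool.Agent.Results.MP_d1698a_pr.HeightWidthAllF

open Pool.Agent.Work.MP_d1698a_pr

/-- For every `f : ℕ → (0, ∞)` with `f(n) → ∞` there is a critical offspring distribution `μ`,
with `P(|T| = n) > 0` for all `n ≥ 1`, such that `H(T_n) / (f(n) ln n)` is tight and even tends to
zero in probability, while `Width(T_n) / (n / f(n))` tends to infinity in probability. -/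
theorem result (f : ℕ → ℝ) (hpos : ∀ n, 0 < f n) (hf : Tendsto f atTop atTop) :
    ∃ μ : PMF ℕ, IsCritical μ ∧
      (∀ n : ℕ, 1 ≤ n → 0 < gw μ {ω | numVertices ω = (n : ℕ∞)}) ∧
      HeightTight μ f ∧
      (∀ ε : ℝ, 0 < ε → Tendsto (fun n : ℕ => (condLaw μ n).real
        {ω | ε * (f n * Real.log n) ≤ (height ω : ℝ)}) atTop (𝓝 0)) ∧
      (∀ A : ℝ, Tendsto (fun n : ℕ => (condLaw μ n).real
        {ω | (width ω : ℝ) ≤ A * (n / f n)}) atTop (𝓝 0)) := by
  obtain ⟨μ, h1, h2, h3, h4⟩ := both_all f hpos hf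
  exact ⟨μ, h1, h2, heightTight_of_tendsto μ f hpos (h3 1 one_pos), h3, h4⟩

end Pool.Agent.Results.MP_d1698a_pr.HeightWidthAllF
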